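import Mathlib.Computability.ContextFreeGrammar
import Mathlib.GroupTheory.FinitelyPresentedGroup
import Mathlib.GroupTheory.PresentedGroup
import Mathlib.Data.ZMod.Basic
import Mathlib.Tactic

set_option autoImplicit false

namespace Pool.Agent.Results.MP_c0d803_al.IndexedNotContextFree

/-! ## Definitions -/

/-- Indexed grammars in the sense of Aho (1968): finitely many nonterminals, finitely many flags
(indices); finitely many productions `A → X₁η₁ ⋯ X_kη_k`, where each `X_i` is a terminal or a
nonterminal carrying a word `η_i` of flags, and for every flag a finite set of index productions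
`A → X₁ ⋯ X_k`. -/
structure IndexedGrammar (T : Type) where
  /-- nonterminals -/
  NT : Type
  /-- flags (indices) -/
  Flag : Type
  finite_NT : Finite NT
  finite_Flag : Finite Flag
  /-- start symbol -/
  initial : NT
  /-- productions -/
  rules : Finset (NT × List (T ⊕ NT × List Flag))
  /-- index productions belonging to each flag -/
  flagRules : Flag → Finset (NT × List (T ⊕ NT))

namespace IndexedGrammar

variable {T : Type} (g : IndexedGrammar T)

/-- Symbols of sentential forms: terminals, and nonterminals with their stack of flags. -/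
abbrev Sym : Type := T ⊕ g.NT × List g.Flag

/-- Append the inherited stack `θ` below the flags of a nonterminal; terminals are unchanged. -/
def push (θ : List g.Flag) : T ⊕ g.NT × List g.Flag → g.Sym
  | Sum.inl t => Sum.inl t
  | Sum.inr (X, η) => Sum.inr (X, η ++ θ)

/-- Give the inherited stack `θ` to a nonterminal; terminals are unchanged. -/
def inherit (θ : List g.Flag) : T ⊕ g.NT → g.Sym
  | Sum.inl t => Sum.inl t
  | Sum.inr X => Sum.inr (X, θ)

/-- One derivation step. A production copies the stack of the rewritten nonterminal to every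
nonterminal of the right-hand side; an index production of the flag `f` may be used only when `f`
is the top flag, and consumes it. -/
inductive Step : List g.Sym → List g.Sym → Prop
  | rule (u v : List g.Sym) (A : g.NT) (θ : List g.Flag) (rhs : List (T ⊕ g.NT × List g.Flag))
      (h : (A, rhs) ∈ g.rules) :
      Step (u ++ [Sum.inr (A, θ)] ++ v) (u ++ rhs.map (g.push θ) ++ v)
  | pop (u v : List g.Sym) (A : g.NT) (f : g.Flag) (θ : List g.Flag) (rhs : List (T ⊕ g.NT))
      (h : (A, rhs) ∈ g.flagRules f) :
      Step (u ++ [Sum.inr (A, f :: θ)] ++ v) (u ++ rhs.map (g.inherit θ) ++ v)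

/-- The language generated by an indexed grammar: the terminal words derivable from the start
symbol with empty stack. -/
def language : Language T :=
  {w : List T | Relation.ReflTransGen g.Step [Sum.inr (g.initial, [])] (w.map Sum.inl)}

end IndexedGrammar

/-- A language is indexed if it is generated by an indexed grammar. -/
def IsIndexed {T : Type} (L : Language T) : Prop := ∃ g : IndexedGrammar T, g.language = L

/-- The words of `L`, read as elements of the free group. -/
def relators {T : Type} (L : Language T) : Set (FreeGroup T) :=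
  {r | ∃ w ∈ L, (w.map FreeGroup.of).prod = r}

/-- Nested stack groups: groups `⟨Δ; w = 1 (w ∈ L)⟩` with `Δ` finite and `L` indexed. -/
def IsNestedStackGroup (G : Type) [Group G] : Prop :=
  ∃ (Δ : Type) (_ : Finite Δ) (L : Language Δ), IsIndexed L ∧
    Nonempty (G ≃* PresentedGroup (relators L))

/-- Context-free groups: groups `⟨Δ; w = 1 (w ∈ L)⟩` with `Δ` finite and `L` context-free. -/
def IsContextFreeGroup (G : Type) [Group G] : Prop :=
  ∃ (Δ : Type) (_ : Finite Δ) (L : Language Δ), L.IsContextFree ∧
    Nonempty (G ≃* PresentedGroup (relators L))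

/-! ## Part A: context-free groups are finitely presented -/

section PartA

variable {T : Type} (g : ContextFreeGrammar T)

/-- Big step semantics of a context-free grammar. -/
inductive Gen : List (Symbol T g.NT) → List T → Prop
  | nil : Gen [] []
  | term (t : T) {α : List (Symbol T g.NT)} {w : List T} (h : Gen α w) :
      Gen (Symbol.terminal t :: α) (t :: w)
  | nonterm (r : ContextFreeRule T g.NT) (hr : r ∈ g.rules) {α : List (Symbol T g.NT)}
      {w₁ w₂ : List T} (h₁ : Gen r.output w₁) (h₂ : Gen α w₂) :
      Gen (Symbol.nonterminal r.input :: α) (w₁ ++ w₂)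

variable {g}

lemma Gen.append {α β : List (Symbol T g.NT)} {w v : List T} (h : Gen g α w) (h' : Gen g β v) :
    Gen g (α ++ β) (w ++ v) := by
  induction h with
  | nil => simpa using h'
  | term t _ ih => exact Gen.term t ih
  | nonterm r hr h₁ _ _ ih₂ =>
    rw [List.append_assoc]
    exact Gen.nonterm r hr h₁ ih₂

lemma Gen.split {α β : List (Symbol T g.NT)} {w : List T} (h : Gen g (α ++ β) w) :
    ∃ w₁ w₂, w = w₁ ++ w₂ ∧ Gen g α w₁ ∧ Gen g β w₂ := by
  induction α generalizing w with
  | nil => exact ⟨[], w, rfl, Gen.nil, h⟩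
  | cons x α ih =>
    cases h with
    | term t h =>
      obtain ⟨w₁, w₂, rfl, h₁, h₂⟩ := ih h
      exact ⟨t :: w₁, w₂, rfl, Gen.term t h₁, h₂⟩
    | nonterm r hr h₁ h₂ =>
      obtain ⟨v₁, v₂, rfl, h₃, h₄⟩ := ih h₂
      exact ⟨_ ++ v₁, v₂, by rw [List.append_assoc], Gen.nonterm r hr h₁ h₃, h₄⟩

lemma gen_terminal (w : List T) : Gen g (w.map Symbol.terminal) w := by
  induction w with
  | nil => exact Gen.nil
  | cons t w ih => exact Gen.term t ih

lemma gen_of_derives {α : List (Symbol T g.NT)} {w : List T}
    (h : g.Derives α (w.map Symbol.terminal)) : Gen g α w := by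
  induction h using Relation.ReflTransGen.head_induction_on with
  | refl => exact gen_terminal w
  | head h' _ ih =>
    obtain ⟨r, hr, hrw⟩ := h'
    obtain ⟨p, q, rfl, rfl⟩ := hrw.exists_parts
    obtain ⟨w₁, w₂, rfl, h₁, h₂⟩ := Gen.split ih
    obtain ⟨w₃, w₄, rfl, h₃, h₄⟩ := Gen.split h₁
    refine Gen.append (Gen.append h₃ ?_) h₂
    simpa using Gen.nonterm r hr h₄ Gen.nil

lemma derives_of_gen {α : List (Symbol T g.NT)} {w : List T} (h : Gen g α w) :
    g.Derives α (w.map Symbol.terminal) := by
  induction h with
  | nil => exact Relation.ReflTransGen.refl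
  | @term t α w _ ih =>
    simpa using ih.append_left [Symbol.terminal t]
  | @nonterm r hr α w₁ w₂ h₁ h₂ ih₁ ih₂ =>
    have e1 : g.Produces (Symbol.nonterminal r.input :: α) (r.output ++ α) :=
      ⟨r, hr, ContextFreeRule.Rewrites.head α⟩
    rw [List.map_append]
    exact (e1.single.trans (ih₁.append_right α)).trans (ih₂.append_left _)

lemma mem_language_iff_gen (w : List T) :
    w ∈ g.language ↔ Gen g [Symbol.nonterminal g.initial] w :=
  ⟨fun h => gen_of_derives h, fun h => derives_of_gen h⟩

/-- `A` occurs in a context `u _ v` that completes words generated by `A` to words of the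
language. -/
def Useful (g : ContextFreeGrammar T) (A : g.NT) : Prop :=
  ∃ u v : List T, ∀ w, Gen g [Symbol.nonterminal A] w → u ++ w ++ v ∈ g.language

lemma useful_initial : Useful g g.initial :=
  ⟨[], [], fun w hw => by simpa using (mem_language_iff_gen w).2 hw⟩

lemma useful_of_rule {r : ContextFreeRule T g.NT} (hr : r ∈ g.rules) (hu : Useful g r.input)
    {w : List T} (hw : Gen g r.output w) {B : g.NT}
    (hB : Symbol.nonterminal B ∈ r.output) : Useful g B := by
  obtain ⟨u, v, huv⟩ := hu
  obtain ⟨p, q, hpq⟩ := List.append_of_mem hB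
  rw [hpq] at hw
  obtain ⟨w₁, w₂, rfl, h₁, h₂⟩ := Gen.split hw
  rw [← List.singleton_append] at h₂
  obtain ⟨w₃, w₄, rfl, h₃, h₄⟩ := Gen.split h₂
  refine ⟨u ++ w₁, w₄ ++ v, fun x hx => ?_⟩
  have h5 : Gen g r.output (w₁ ++ (x ++ w₄)) := by
    rw [hpq, ← List.singleton_append]
    exact h₁.append (hx.append h₄)
  have h6 : Gen g [Symbol.nonterminal r.input] (w₁ ++ (x ++ w₄)) := by
    simpa using Gen.nonterm r hr h5 Gen.nil
  simpa [List.append_assoc] using huv _ h6

/-- The value of a word in a group. -/
def val {H : Type} [Group H] (f : T → H) (w : List T) : H := (w.map f).prod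

lemma val_append {H : Type} [Group H] (f : T → H) (w v : List T) :
    val f (w ++ v) = val f w * val f v := by simp [val]

open Classical in
/-- A chosen word generated by `A` (the empty word if there is none). -/
noncomputable def rep (g : ContextFreeGrammar T) (A : g.NT) : List T :=
  if h : ∃ w, Gen g [Symbol.nonterminal A] w then h.choose else []

lemma rep_spec {A : g.NT} (h : ∃ w, Gen g [Symbol.nonterminal A] w) :
    Gen g [Symbol.nonterminal A] (rep g A) := by
  unfold rep
  rw [dif_pos h]
  exact h.choose_spec

/-- The word obtained from a string by replacing every nonterminal by its representative. -/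
noncomputable def repStr (g : ContextFreeGrammar T) : List (Symbol T g.NT) → List T
  | [] => []
  | Symbol.terminal t :: α => t :: repStr g α
  | Symbol.nonterminal A :: α => rep g A ++ repStr g α

/-- The finite set of relators. -/
def finRel (g : ContextFreeGrammar T) : Set (FreeGroup T) :=
  {x | ∃ r ∈ g.rules, Useful g r.input ∧ (∃ w, Gen g r.output w) ∧
    x = (val FreeGroup.of (rep g r.input))⁻¹ * val FreeGroup.of (repStr g r.output)} ∪
  {x | (∃ w, Gen g [Symbol.nonterminal g.initial] w) ∧ x = val FreeGroup.of (rep g g.initial)}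

lemma finRel_finite (g : ContextFreeGrammar T) : (finRel g).Finite := by
  apply Set.Finite.union
  · apply Set.Finite.subset (s := (fun r : ContextFreeRule T g.NT =>
      (val FreeGroup.of (rep g r.input))⁻¹ * val FreeGroup.of (repStr g r.output)) ''
        (g.rules : Set (ContextFreeRule T g.NT)))
    · exact (Finset.finite_toSet _).image _
    · rintro x ⟨r, hr, -, -, rfl⟩
      exact ⟨r, hr, rfl⟩
  · apply Set.Finite.subset (Set.finite_singleton (val FreeGroup.of (rep g g.initial)))
    rintro x ⟨-, rfl⟩
    rfl

/-- The projection of words to a presented group. -/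
lemma mk_val (R : Set (FreeGroup T)) (w : List T) :
    PresentedGroup.mk R (val FreeGroup.of w) = val (PresentedGroup.of (rels := R)) w := by
  induction w with
  | nil => simp [val]
  | cons t w ih =>
    simp only [val, List.map_cons, List.prod_cons, map_mul] at ih ⊢
    rw [ih]
    rfl

lemma val_eq_one_of_mem {L : Language T} {w : List T} (hw : w ∈ L) :
    val (PresentedGroup.of (rels := relators L)) w = 1 := by
  rw [← mk_val]
  exact PresentedGroup.one_of_mem ⟨w, hw, rfl⟩

/-- All words generated by a useful nonterminal have the same value. -/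
lemma val_const {A : g.NT} (hA : Useful g A) {w w' : List T}
    (hw : Gen g [Symbol.nonterminal A] w) (hw' : Gen g [Symbol.nonterminal A] w') :
    val (PresentedGroup.of (rels := relators g.language)) w =
      val (PresentedGroup.of (rels := relators g.language)) w' := by
  obtain ⟨u, v, h⟩ := hA
  have h1 := val_eq_one_of_mem (h w hw)
  have h2 := val_eq_one_of_mem (h w' hw')
  rw [val_append, val_append] at h1 h2
  rw [← h2] at h1
  exact mul_left_cancel (mul_right_cancel h1)

lemma val_repStr {α : List (Symbol T g.NT)} {w : List T} (hw : Gen g α w)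
    (hα : ∀ B, Symbol.nonterminal B ∈ α → Useful g B) :
    val (PresentedGroup.of (rels := relators g.language)) w =
      val (PresentedGroup.of (rels := relators g.language)) (repStr g α) := by
  induction hw with
  | nil => rfl
  | @term t α w h ih =>
    have := ih (fun B hB => hα B (List.mem_cons_of_mem _ hB))
    simp only [val, repStr, List.map_cons, List.prod_cons] at this ⊢
    rw [this]
  | @nonterm r hr α w₁ w₂ h₁ h₂ _ ih₂ =>
    have := ih₂ (fun B hB => hα B (List.mem_cons_of_mem _ hB))
    rw [repStr, val_append, val_append, this]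
    congr 1
    have h3 : Gen g [Symbol.nonterminal r.input] w₁ := by
      simpa using Gen.nonterm r hr h₁ Gen.nil
    exact val_const (hα _ (by simp)) h3 (rep_spec ⟨_, h3⟩)

lemma finRel_subset (g : ContextFreeGrammar T) :
    finRel g ⊆ Subgroup.normalClosure (relators g.language) := by
  rintro x (⟨r, hr, hu, ⟨w, hw⟩, rfl⟩ | ⟨⟨w, hw⟩, rfl⟩)
  · rw [SetLike.mem_coe, ← PresentedGroup.mk_eq_one_iff, map_mul, map_inv, mk_val, mk_val]
    have h3 : Gen g [Symbol.nonterminal r.input] w := by
      simpa using Gen.nonterm r hr hw Gen.nil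
    rw [← val_repStr hw (fun B hB => useful_of_rule hr hu hw hB),
      val_const hu (rep_spec ⟨_, h3⟩) h3, inv_mul_cancel]
  · rw [SetLike.mem_coe, ← PresentedGroup.mk_eq_one_iff, mk_val]
    exact val_eq_one_of_mem ((mem_language_iff_gen _).2 (rep_spec ⟨w, hw⟩))

lemma val_repStr' {α : List (Symbol T g.NT)} {w : List T} (hw : Gen g α w)
    (hα : ∀ B, Symbol.nonterminal B ∈ α → Useful g B) :
    val (PresentedGroup.of (rels := finRel g)) w =
      val (PresentedGroup.of (rels := finRel g)) (repStr g α) := by
  induction hw with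
  | nil => rfl
  | @term t α w h ih =>
    have := ih (fun B hB => hα B (List.mem_cons_of_mem _ hB))
    simp only [val, repStr, List.map_cons, List.prod_cons] at this ⊢
    rw [this]
  | @nonterm r hr α w₁ w₂ h₁ h₂ ih₁ ih₂ =>
    have := ih₂ (fun B hB => hα B (List.mem_cons_of_mem _ hB))
    rw [repStr, val_append, val_append, this]
    congr 1
    have hu : Useful g r.input := hα _ (by simp)
    rw [ih₁ (fun B hB => useful_of_rule hr hu h₁ hB)]
    have h4 : (val FreeGroup.of (rep g r.input))⁻¹ * val FreeGroup.of (repStr g r.output) ∈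
        finRel g := Or.inl ⟨r, hr, hu, ⟨w₁, h₁⟩, rfl⟩
    have h5 := PresentedGroup.mk_eq_mk_of_inv_mul_mem h4
    rw [mk_val, mk_val] at h5
    exact h5.symm

lemma relators_subset (g : ContextFreeGrammar T) :
    relators g.language ⊆ Subgroup.normalClosure (finRel g) := by
  rintro x ⟨w, hw, rfl⟩
  have hw' := (mem_language_iff_gen w).1 hw
  change val FreeGroup.of w ∈ _
  rw [SetLike.mem_coe, ← PresentedGroup.mk_eq_one_iff, mk_val, val_repStr' hw' (by
    intro B hB
    simp only [List.mem_singleton, Symbol.nonterminal.injEq] at hB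
    subst hB
    exact useful_initial)]
  simp only [repStr, List.append_nil]
  rw [← mk_val]
  exact PresentedGroup.one_of_mem (Or.inr ⟨⟨w, hw'⟩, rfl⟩)

lemma normalClosure_eq (g : ContextFreeGrammar T) :
    Subgroup.normalClosure (relators g.language) = Subgroup.normalClosure (finRel g) :=
  le_antisymm (Subgroup.normalClosure_le_normal (relators_subset g))
    (Subgroup.normalClosure_le_normal (finRel_subset g))

theorem isFinitelyPresented_of_isContextFree [Finite T] {L : Language T} (hL : L.IsContextFree) :
    Group.IsFinitelyPresented (PresentedGroup (relators L)) := by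
  obtain ⟨g, rfl⟩ := hL
  refine Group.IsFinitelyPresented.of_surjective (PresentedGroup.mk _)
    (PresentedGroup.mk_surjective _) ⟨finRel g, finRel_finite g, ?_⟩
  rw [← normalClosure_eq]
  exact (QuotientGroup.ker_mk' _).symm

end PartA

/-! ## Part B: finitely presented groups need only finitely many of the given relators -/

section PartB

lemma ker_finitely_normally_generated {G : Type} [Group G] [hG : Group.IsFinitelyPresented G]
    {Δ : Type} [Finite Δ] (ψ : FreeGroup Δ →* G) (hψ : Function.Surjective ψ) :
    ψ.ker.IsFinitelyNormallyGenerated := by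
  obtain ⟨n, φ, hφ, S, hS, hSφ⟩ := hG.out
  choose u hu using fun i : Fin n => hψ (φ (FreeGroup.of i))
  choose v hv using fun y : Δ => hφ (ψ (FreeGroup.of y))
  set U : FreeGroup (Fin n) →* FreeGroup Δ := FreeGroup.lift u with hU
  set V : FreeGroup Δ →* FreeGroup (Fin n) := FreeGroup.lift v with hV
  have hUφ : ∀ x, ψ (U x) = φ x := by
    intro x
    have : ψ.comp U = φ := by
      ext i
      simp [hU, hu]
    exact DFunLike.congr_fun this x
  have hVψ : ∀ x, φ (V x) = ψ x := by
    intro x
    have : φ.comp V = ψ := by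
      ext i
      simp [hV, hv]
    exact DFunLike.congr_fun this x
  let R : Set (FreeGroup Δ) := U '' S ∪ Set.range (fun y : Δ =>
    (FreeGroup.of y)⁻¹ * U (V (FreeGroup.of y)))
  refine ⟨R, (hS.image _).union (Set.finite_range _), ?_⟩
  apply le_antisymm
  · apply Subgroup.normalClosure_le_normal
    rintro x (⟨s, hs, rfl⟩ | ⟨y, rfl⟩)
    · have h1 : s ∈ φ.ker := hSφ ▸ Subgroup.subset_normalClosure hs
      rw [SetLike.mem_coe, MonoidHom.mem_ker, hUφ]
      exact h1
    · rw [SetLike.mem_coe, MonoidHom.mem_ker, map_mul, map_inv, hUφ, hVψ, inv_mul_cancel]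
  · intro x hx
    have h1 : (PresentedGroup.mk R).comp (U.comp V) = PresentedGroup.mk R := by
      ext y
      have h2 : (FreeGroup.of y)⁻¹ * U (V (FreeGroup.of y)) ∈ R := Or.inr ⟨y, rfl⟩
      exact (PresentedGroup.mk_eq_mk_of_inv_mul_mem h2).symm
    have h3 : V x ∈ Subgroup.normalClosure S := by
      rw [hSφ, MonoidHom.mem_ker, hVψ]
      exact hx
    have h4 : Subgroup.normalClosure S ≤ (Subgroup.normalClosure R).comap U := by
      apply Subgroup.normalClosure_le_normal
      intro s hs
      exact Subgroup.subset_normalClosure (Or.inl ⟨s, hs, rfl⟩)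
    have h5 : PresentedGroup.mk R (U (V x)) = 1 := PresentedGroup.mk_eq_one_iff.2 (h4 h3)
    have h6 := DFunLike.congr_fun h1 x
    simp only [MonoidHom.comp_apply] at h6
    rw [← PresentedGroup.mk_eq_one_iff, ← h6, h5]

/-- If a finitely presented group is given by an increasing union of sets of relators over a
finite alphabet, then one member of the union already suffices. -/
lemma exists_stage {Δ : Type} [Finite Δ] (R : ℕ → Set (FreeGroup Δ)) (hR : Monotone R)
    (h : Group.IsFinitelyPresented (PresentedGroup (⋃ n, R n))) :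
    ∃ n, Subgroup.normalClosure (⋃ n, R n) = Subgroup.normalClosure (R n) := by
  obtain ⟨S, hS, hSe⟩ := ker_finitely_normally_generated (PresentedGroup.mk (⋃ n, R n))
    (PresentedGroup.mk_surjective _)
  have hker : (PresentedGroup.mk (⋃ n, R n)).ker = Subgroup.normalClosure (⋃ n, R n) :=
    QuotientGroup.ker_mk' _
  rw [hker] at hSe
  -- the union of the normal closures
  have key : ∀ x ∈ Subgroup.normalClosure (⋃ n, R n), ∃ n, x ∈ Subgroup.normalClosure (R n) := by
    have hmono : ∀ {m n : ℕ}, m ≤ n →
        Subgroup.normalClosure (R m) ≤ Subgroup.normalClosure (R n) :=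
      fun h => Subgroup.normalClosure_mono (hR h)
    let K : Subgroup (FreeGroup Δ) :=
      { carrier := {x | ∃ n, x ∈ Subgroup.normalClosure (R n)}
        one_mem' := ⟨0, one_mem _⟩
        mul_mem' := by
          rintro a b ⟨m, hm⟩ ⟨n, hn⟩
          exact ⟨max m n, mul_mem (hmono (le_max_left _ _) hm) (hmono (le_max_right _ _) hn)⟩
        inv_mem' := by
          rintro a ⟨m, hm⟩
          exact ⟨m, inv_mem hm⟩ }
    have hK : K.Normal := ⟨by
      rintro a ⟨m, hm⟩ b
      exact ⟨m, Subgroup.normalClosure_normal.conj_mem a hm b⟩⟩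
    have hle : Subgroup.normalClosure (⋃ n, R n) ≤ K := by
      apply Subgroup.normalClosure_le_normal
      intro x hx
      obtain ⟨n, hn⟩ := Set.mem_iUnion.1 hx
      exact ⟨n, Subgroup.subset_normalClosure hn⟩
    intro x hx
    exact hle hx
  have hfin : ∃ n, S ⊆ Subgroup.normalClosure (R n) := by
    have hsub : ∀ x ∈ S, ∃ n, x ∈ Subgroup.normalClosure (R n) := by
      intro x hx
      apply key
      rw [← hSe]
      exact Subgroup.subset_normalClosure hx
    choose! N hN using hsub
    obtain ⟨n, hn⟩ := (hS.image N).bddAbove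
    refine ⟨n, fun x hx => ?_⟩
    exact Subgroup.normalClosure_mono (hR (hn ⟨x, hx, rfl⟩)) (hN x hx)
  obtain ⟨n, hn⟩ := hfin
  refine ⟨n, le_antisymm ?_ (Subgroup.normalClosure_mono (Set.subset_iUnion R n))⟩
  rw [← hSe]
  exact Subgroup.normalClosure_le_normal hn

end PartB

/-! ## Part C: the lamplighter relators -/

section PartC

/-- The alphabet: the generator `a`, the generator `t` and a letter `s` standing for `t⁻¹`. -/
inductive Letter : Type
  | a : Letter
  | t : Letter
  | s : Letter
  deriving DecidableEq

instance : Fintype Letter := ⟨{Letter.a, Letter.t, Letter.s}, by intro x; cases x <;> simp⟩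

open Letter

/-- The word `a sⁿ a tⁿ a sⁿ a tⁿ`. -/
def commWord (n : ℕ) : List Letter :=
  [a] ++ List.replicate n s ++ [a] ++ List.replicate n t ++ [a] ++ List.replicate n s ++ [a] ++
    List.replicate n t

/-- The relator language. -/
def lampLang : Language Letter := {w | w = [a, a] ∨ w = [s, t] ∨ ∃ n, w = commWord n}

/-- The relators up to stage `N`. -/
def lampStage (N : ℕ) : Set (FreeGroup Letter) :=
  {r | ∃ w, (w = [a, a] ∨ w = [s, t] ∨ ∃ n ≤ N, w = commWord n) ∧
    (w.map FreeGroup.of).prod = r}

lemma lampStage_mono : Monotone lampStage := by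
  intro m n hmn r
  rintro ⟨w, hw, rfl⟩
  refine ⟨w, ?_, rfl⟩
  rcases hw with h | h | ⟨k, hk, h⟩
  · exact Or.inl h
  · exact Or.inr (Or.inl h)
  · exact Or.inr (Or.inr ⟨k, hk.trans hmn, h⟩)

lemma iUnion_lampStage : (⋃ N, lampStage N) = relators lampLang := by
  ext r
  simp only [Set.mem_iUnion]
  constructor
  · rintro ⟨N, w, hw, rfl⟩
    refine ⟨w, ?_, rfl⟩
    rcases hw with h | h | ⟨k, hk, h⟩
    · exact Or.inl h
    · exact Or.inr (Or.inl h)
    · exact Or.inr (Or.inr ⟨k, h⟩)
  · rintro ⟨w, hw, rfl⟩
    rcases hw with h | h | ⟨k, h⟩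
    · exact ⟨0, w, Or.inl h, rfl⟩
    · exact ⟨0, w, Or.inr (Or.inl h), rfl⟩
    · exact ⟨k, w, Or.inr (Or.inr ⟨k, le_rfl, h⟩), rfl⟩

/-- The shift on `ℤ ⊕ ZMod M`. -/
def shiftPerm (M : ℕ) : Equiv.Perm (ℤ ⊕ ZMod M) :=
  Equiv.Perm.sumCongr (Equiv.addRight 1) (Equiv.addRight 1)

/-- The images of the letters. -/
def letterPerm (M : ℕ) : Letter → Equiv.Perm (ℤ ⊕ ZMod M)
  | a => Equiv.swap (Sum.inl 0) (Sum.inr 0)
  | t => shiftPerm M
  | s => (shiftPerm M)⁻¹

lemma shiftPerm_pow_inl (M n : ℕ) (x : ℤ) :
    (shiftPerm M ^ n) (Sum.inl x) = Sum.inl (x + n) := by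
  induction n generalizing x with
  | zero => simp
  | succ n ih =>
    rw [pow_succ, Equiv.Perm.mul_apply]
    have : shiftPerm M (Sum.inl x) = Sum.inl (x + 1) := by simp [shiftPerm]
    rw [this, ih]
    congr 1
    push_cast
    ring

lemma shiftPerm_pow_inr (M n : ℕ) (x : ZMod M) :
    (shiftPerm M ^ n) (Sum.inr x) = Sum.inr (x + n) := by
  induction n generalizing x with
  | zero => simp
  | succ n ih =>
    rw [pow_succ, Equiv.Perm.mul_apply]
    have : shiftPerm M (Sum.inr x) = Sum.inr (x + 1) := by simp [shiftPerm]
    rw [this, ih]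
    congr 1
    push_cast
    ring

lemma conj_swap (M n : ℕ) :
    (shiftPerm M)⁻¹ ^ n * Equiv.swap (Sum.inl (0 : ℤ)) (Sum.inr (0 : ZMod M)) * shiftPerm M ^ n =
      Equiv.swap (Sum.inl (-(n : ℤ))) (Sum.inr (-(n : ZMod M))) := by
  have h1 : (shiftPerm M ^ n) (Sum.inl (-(n : ℤ))) = Sum.inl 0 := by
    rw [shiftPerm_pow_inl]; simp
  have h2 : (shiftPerm M ^ n) (Sum.inr (-(n : ZMod M))) = Sum.inr 0 := by
    rw [shiftPerm_pow_inr]; simp
  rw [inv_pow]
  have := Equiv.swap_apply_apply ((shiftPerm M ^ n)⁻¹) (Sum.inl (0 : ℤ)) (Sum.inr (0 : ZMod M))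
  rw [inv_inv] at this
  rw [← this]
  congr 1
  · rw [Equiv.Perm.inv_eq_iff_eq, h1]
  · rw [Equiv.Perm.inv_eq_iff_eq, h2]

lemma lift_commWord (M n : ℕ) :
    ((commWord n).map (letterPerm M)).prod =
      (Equiv.swap (Sum.inl (0 : ℤ)) (Sum.inr (0 : ZMod M)) *
        Equiv.swap (Sum.inl (-(n : ℤ))) (Sum.inr (-(n : ZMod M)))) ^ 2 := by
  rw [← conj_swap]
  simp only [commWord, List.map_append, List.prod_append, List.map_replicate,
    List.prod_replicate, List.map_cons, List.map_nil, List.prod_cons, List.prod_nil, mul_one,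
    letterPerm, pow_two, mul_assoc]

lemma lift_commWord_small {N n : ℕ} (hn : n ≤ N) :
    ((commWord n).map (letterPerm (N + 1))).prod = 1 := by
  rw [lift_commWord]
  rcases Nat.eq_zero_or_pos n with rfl | hpos
  · simp
  · have hne : (Sum.inr (-(n : ZMod (N + 1))) : ℤ ⊕ ZMod (N + 1)) ≠ Sum.inr 0 := by
      intro h
      have h1 : (-(n : ZMod (N + 1))) = 0 := Sum.inr_injective h
      rw [neg_eq_zero, ZMod.natCast_eq_zero_iff] at h1
      have := Nat.le_of_dvd hpos h1
      omega
    have hne' : (Sum.inl (-(n : ℤ)) : ℤ ⊕ ZMod (N + 1)) ≠ Sum.inl 0 := by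
      intro h
      have h1 : (-(n : ℤ)) = 0 := Sum.inl_injective h
      omega
    have hcomm : Commute (Equiv.swap (Sum.inl (0 : ℤ)) (Sum.inr (0 : ZMod (N + 1))))
        (Equiv.swap (Sum.inl (-(n : ℤ))) (Sum.inr (-(n : ZMod (N + 1))))) := by
      apply Equiv.Perm.Disjoint.commute
      rw [Equiv.Perm.disjoint_iff_eq_or_eq]
      intro x
      by_cases h1 : x = Sum.inl 0
      · right
        subst h1
        exact Equiv.swap_apply_of_ne_of_ne hne'.symm (by simp)
      · by_cases h2 : x = Sum.inr 0
        · right
          subst h2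
          exact Equiv.swap_apply_of_ne_of_ne (by simp) hne.symm
        · left
          exact Equiv.swap_apply_of_ne_of_ne h1 h2
    rw [hcomm.mul_pow]
    simp [pow_two]

lemma lift_commWord_big (N : ℕ) :
    ((commWord (N + 1)).map (letterPerm (N + 1))).prod ≠ 1 := by
  rw [lift_commWord]
  intro h
  have h0 : (-((N + 1 : ℕ) : ZMod (N + 1))) = 0 := by simp
  rw [h0] at h
  have h1 := DFunLike.congr_fun h (Sum.inl 0)
  have hne' : (Sum.inl 0 : ℤ ⊕ ZMod (N + 1)) ≠ Sum.inl (-((N + 1 : ℕ) : ℤ)) := by
    intro h
    have h1 : (0 : ℤ) = (-((N + 1 : ℕ) : ℤ)) := Sum.inl_injective h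
    omega
  rw [pow_two, Equiv.Perm.mul_apply, Equiv.Perm.mul_apply, Equiv.Perm.mul_apply,
    Equiv.swap_apply_of_ne_of_ne hne' (by simp), Equiv.swap_apply_left, Equiv.swap_apply_right,
    Equiv.swap_apply_of_ne_of_ne hne'.symm (by simp)] at h1
  exact hne' h1.symm

lemma not_normalClosure_eq (N : ℕ) :
    Subgroup.normalClosure (⋃ n, lampStage n) ≠ Subgroup.normalClosure (lampStage N) := by
  intro h
  have h1 : ((commWord (N + 1)).map FreeGroup.of).prod ∈
      Subgroup.normalClosure (⋃ n, lampStage n) := by
    apply Subgroup.subset_normalClosure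
    exact Set.mem_iUnion.2 ⟨N + 1, commWord (N + 1), Or.inr (Or.inr ⟨N + 1, le_rfl, rfl⟩), rfl⟩
  rw [h] at h1
  have hlift : ∀ w : List Letter, FreeGroup.lift (letterPerm (N + 1))
      (w.map FreeGroup.of).prod = (w.map (letterPerm (N + 1))).prod := by
    intro w
    rw [map_list_prod, List.map_map]
    congr 1
  have h2 := PresentedGroup.to_group_eq_one_of_mem_closure (f := letterPerm (N + 1))
    (rels := lampStage N) (by
      rintro r ⟨w, hw, rfl⟩
      rw [hlift]
      rcases hw with rfl | rfl | ⟨n, hn, rfl⟩
      · simp [letterPerm]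
      · simp [letterPerm]
      · exact lift_commWord_small hn) _ h1
  rw [hlift] at h2
  exact lift_commWord_big N h2

theorem lamp_not_isFinitelyPresented :
    ¬ Group.IsFinitelyPresented (PresentedGroup (relators lampLang)) := by
  intro h
  rw [← iUnion_lampStage] at h
  obtain ⟨N, hN⟩ := exists_stage lampStage lampStage_mono h
  exact not_normalClosure_eq N hN

end PartC

/-! ## Part D: the relator language is indexed -/

section PartD

open Letter

/-- Nonterminals of the grammar. -/
inductive NTs : Type
  | S : NTs
  | P : NTs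
  | D : NTs
  | E : NTs
  deriving DecidableEq

/-- Flags of the grammar: a counter flag and a bottom flag. -/
inductive Flags : Type
  | f : Flags
  | z : Flags
  deriving DecidableEq

instance : Fintype NTs := ⟨{NTs.S, NTs.P, NTs.D, NTs.E}, by intro x; cases x <;> simp⟩
instance : Fintype Flags := ⟨{Flags.f, Flags.z}, by intro x; cases x <;> simp⟩

open NTs Flags

/-- Productions `S → aa | st | P z`, `P → P f | a E a D a E a D`. -/
def lampRules : Finset (NTs × List (Letter ⊕ NTs × List Flags)) :=
  {(S, [Sum.inl a, Sum.inl a]), (S, [Sum.inl s, Sum.inl t]), (S, [Sum.inr (P, [z])]),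
    (P, [Sum.inr (P, [f])]),
    (P, [Sum.inl a, Sum.inr (E, []), Sum.inl a, Sum.inr (D, []), Sum.inl a, Sum.inr (E, []),
      Sum.inl a, Sum.inr (D, [])])}

/-- Index productions `f : D → t D, E → s E` and `z : D → ε, E → ε`. -/
def lampFlagRules : Flags → Finset (NTs × List (Letter ⊕ NTs))
  | f => {(D, [Sum.inl t, Sum.inr D]), (E, [Sum.inl s, Sum.inr E])}
  | z => {(D, []), (E, [])}

/-- The indexed grammar `S → aa | st | P z`, `P → P f | a E a D a E a D`,
`f : D → t D, E → s E`, `z : D → ε, E → ε`. -/
def lampGrammar : IndexedGrammar Letter where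
  NT := NTs
  Flag := Flags
  finite_NT := inferInstance
  finite_Flag := inferInstance
  initial := S
  rules := lampRules
  flagRules := lampFlagRules

/-- Words generated from `D` (letter `t`) or `E` (letter `s`) with a given stack. -/
def dLang (x : Letter) : List Flags → Language Letter
  | [] => 0
  | f :: θ => {[x]} * dLang x θ
  | z :: _ => 1

/-- Words generated from `P` after `k` further pushes. -/
def cLang (θ : List Flags) : Language Letter :=
  {[a]} * (dLang s θ * ({[a]} * (dLang t θ * ({[a]} * (dLang s θ * ({[a]} * dLang t θ))))))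

/-- Words generated from `P`. -/
def pLang (θ : List Flags) : Language Letter :=
  ⨆ k : ℕ, cLang (List.replicate k f ++ θ)

/-- Interpretation of symbols as languages. -/
def symLang : Letter ⊕ NTs × List Flags → Language Letter
  | Sum.inl x => {[x]}
  | Sum.inr (S, θ) => {[a, a]} + {[s, t]} + pLang (z :: θ)
  | Sum.inr (P, θ) => pLang θ
  | Sum.inr (D, θ) => dLang t θ
  | Sum.inr (E, θ) => dLang s θ

/-- Interpretation of sentential forms as languages. -/
def strLang (α : List (Letter ⊕ NTs × List Flags)) : Language Letter := (α.map symLang).prod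

lemma strLang_append (α β : List (Letter ⊕ NTs × List Flags)) :
    strLang (α ++ β) = strLang α * strLang β := by simp [strLang]

lemma single_mul_single (u v : List Letter) :
    ({u} : Language Letter) * {v} = {u ++ v} := by
  rw [Language.mul_def]
  exact Set.image2_singleton

lemma strLang_rule {A : NTs} {θ : List Flags} {rhs : List (Letter ⊕ NTs × List Flags)}
    (h : (A, rhs) ∈ lampRules) :
    strLang (rhs.map (lampGrammar.push θ)) ≤ symLang (Sum.inr (A, θ)) := by
  simp only [lampRules, Finset.mem_insert, Finset.mem_singleton, Prod.mk.injEq] at h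
  rcases h with ⟨rfl, rfl⟩ | ⟨rfl, rfl⟩ | ⟨rfl, rfl⟩ | ⟨rfl, rfl⟩ | ⟨rfl, rfl⟩
  · intro w hw
    left; left
    change w ∈ ({[a]} : Language Letter) * ({[a]} * 1) at hw
    rwa [mul_one, single_mul_single] at hw
  · intro w hw
    left; right
    change w ∈ ({[s]} : Language Letter) * ({[t]} * 1) at hw
    rwa [mul_one, single_mul_single] at hw
  · intro w hw
    right
    change w ∈ pLang ([z] ++ θ) * 1 at hw
    rwa [mul_one] at hw
  · intro w hw
    change w ∈ pLang ([f] ++ θ) * 1 at hw
    rw [mul_one] at hw
    obtain ⟨k, hk⟩ := Set.mem_iUnion.1 hw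
    refine Set.mem_iUnion.2 ⟨k + 1, ?_⟩
    rw [← List.append_assoc, ← List.replicate_succ'] at hk
    exact hk
  · intro w hw
    change w ∈ ({[a]} : Language Letter) * (dLang s θ * ({[a]} * (dLang t θ *
      ({[a]} * (dLang s θ * ({[a]} * (dLang t θ * 1))))))) at hw
    rw [mul_one] at hw
    exact Set.mem_iUnion.2 ⟨0, hw⟩

lemma strLang_pop {A : NTs} {x : Flags} {θ : List Flags} {rhs : List (Letter ⊕ NTs)}
    (h : (A, rhs) ∈ lampFlagRules x) :
    strLang (rhs.map (lampGrammar.inherit θ)) ≤ symLang (Sum.inr (A, x :: θ)) := by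
  cases x
  · simp only [lampFlagRules, Finset.mem_insert, Finset.mem_singleton, Prod.mk.injEq] at h
    rcases h with ⟨rfl, rfl⟩ | ⟨rfl, rfl⟩
    · change ({[t]} : Language Letter) * (dLang t θ * 1) ≤ {[t]} * dLang t θ
      rw [mul_one]
    · change ({[s]} : Language Letter) * (dLang s θ * 1) ≤ {[s]} * dLang s θ
      rw [mul_one]
  · simp only [lampFlagRules, Finset.mem_insert, Finset.mem_singleton, Prod.mk.injEq] at h
    rcases h with ⟨rfl, rfl⟩ | ⟨rfl, rfl⟩
    · exact le_rfl
    · exact le_rfl

lemma strLang_mono_ctx (u v : List (Letter ⊕ NTs × List Flags))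
    {α β : List (Letter ⊕ NTs × List Flags)} (h : strLang α ≤ strLang β) :
    strLang (u ++ α ++ v) ≤ strLang (u ++ β ++ v) := by
  rw [strLang_append, strLang_append, strLang_append, strLang_append]
  exact mul_le_mul_left (mul_le_mul_right h _) _

lemma strLang_single (x : Letter ⊕ NTs × List Flags) : strLang [x] = symLang x := by
  simp [strLang]

lemma strLang_step {α β : List lampGrammar.Sym} (h : lampGrammar.Step α β) :
    strLang β ≤ strLang α := by
  cases h with
  | rule u v A θ rhs h =>
    apply strLang_mono_ctx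
    exact (strLang_rule (θ := θ) h).trans_eq (strLang_single _).symm
  | pop u v A x θ rhs h =>
    apply strLang_mono_ctx
    exact (strLang_pop (θ := θ) h).trans_eq (strLang_single _).symm

lemma strLang_derives {α β : List lampGrammar.Sym}
    (h : Relation.ReflTransGen lampGrammar.Step α β) : strLang β ≤ strLang α := by
  induction h with
  | refl => exact le_rfl
  | tail _ h ih => exact (strLang_step h).trans ih

lemma strLang_terminal (w : List Letter) : strLang (w.map Sum.inl) = {w} := by
  induction w with
  | nil => rfl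
  | cons x w ih =>
    change ({[x]} : Language Letter) * strLang (w.map Sum.inl) = {x :: w}
    rw [ih, single_mul_single]
    rfl

lemma dLang_eq (x : Letter) (k : ℕ) :
    dLang x (List.replicate k f ++ [z]) = {List.replicate k x} := by
  induction k with
  | zero => rfl
  | succ k ih =>
    change ({[x]} : Language Letter) * dLang x (List.replicate k f ++ [z]) = _
    rw [ih, single_mul_single]
    rfl

lemma cLang_eq (k : ℕ) : cLang (List.replicate k f ++ [z]) = {commWord k} := by
  unfold cLang
  rw [dLang_eq, dLang_eq]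
  simp only [single_mul_single]
  simp [commWord]

lemma symLang_start : symLang (Sum.inr (S, [])) = lampLang := by
  ext w
  constructor
  · rintro ((h | h) | h)
    · exact Or.inl h
    · exact Or.inr (Or.inl h)
    · obtain ⟨k, hk⟩ := Set.mem_iUnion.1 h
      rw [cLang_eq] at hk
      exact Or.inr (Or.inr ⟨k, hk⟩)
  · rintro (h | h | ⟨k, h⟩)
    · exact Or.inl (Or.inl h)
    · exact Or.inl (Or.inr h)
    · refine Or.inr (Set.mem_iUnion.2 ⟨k, ?_⟩)
      rw [cLang_eq]
      exact h

lemma language_le : lampGrammar.language ≤ lampLang := by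
  intro w hw
  have h := strLang_derives hw
  have h1 : w ∈ strLang (w.map Sum.inl) := by
    rw [strLang_terminal]
    rfl
  have h2 := h h1
  change w ∈ symLang (Sum.inr (S, [])) * 1 at h2
  rw [mul_one, symLang_start] at h2
  exact h2

/-! The converse inclusion: explicit derivations. -/

/-- Derivability in the lamplighter grammar, with unfolded types. -/
def Der (α β : List (Letter ⊕ NTs × List Flags)) : Prop :=
  Relation.ReflTransGen lampGrammar.Step α β

lemma Der.trans {α β γ : List (Letter ⊕ NTs × List Flags)} (h : Der α β) (h' : Der β γ) :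
    Der α γ := Relation.ReflTransGen.trans h h'

lemma step_ctx {α β : List lampGrammar.Sym} (p q : List lampGrammar.Sym)
    (h : lampGrammar.Step α β) : lampGrammar.Step (p ++ α ++ q) (p ++ β ++ q) := by
  cases h with
  | rule u v A θ rhs h =>
    have := IndexedGrammar.Step.rule (g := lampGrammar) (p ++ u) (v ++ q) A θ rhs h
    simpa only [List.append_assoc] using this
  | pop u v A x θ rhs h =>
    have := IndexedGrammar.Step.pop (g := lampGrammar) (p ++ u) (v ++ q) A x θ rhs h
    simpa only [List.append_assoc] using this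

lemma Der.ctx {α β : List (Letter ⊕ NTs × List Flags)} (p q : List (Letter ⊕ NTs × List Flags))
    (h : Der α β) : Der (p ++ α ++ q) (p ++ β ++ q) := by
  unfold Der at h ⊢
  induction h with
  | refl => exact Relation.ReflTransGen.refl
  | tail _ h ih => exact ih.tail (step_ctx p q h)

lemma Der.append {α β α' β' : List (Letter ⊕ NTs × List Flags)} (h : Der α β) (h' : Der α' β') :
    Der (α ++ α') (β ++ β') := by
  have h1 := Der.ctx [] α' h
  have h2 := Der.ctx β [] h'
  simp only [List.nil_append, List.append_nil] at h1 h2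
  exact h1.trans h2

lemma der_rule {A : NTs} {rhs : List (Letter ⊕ NTs × List Flags)} (θ : List Flags)
    (h : (A, rhs) ∈ lampRules) : Der [Sum.inr (A, θ)] (rhs.map (lampGrammar.push θ)) := by
  have := IndexedGrammar.Step.rule (g := lampGrammar) [] [] A θ rhs h
  simp only [List.nil_append, List.append_nil] at this
  exact Relation.ReflTransGen.single this

lemma der_pop {A : NTs} {x : Flags} {rhs : List (Letter ⊕ NTs)} (θ : List Flags)
    (h : (A, rhs) ∈ lampFlagRules x) :
    Der [Sum.inr (A, x :: θ)] (rhs.map (lampGrammar.inherit θ)) := by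
  have := IndexedGrammar.Step.pop (g := lampGrammar) [] [] A x θ rhs h
  simp only [List.nil_append, List.append_nil] at this
  exact Relation.ReflTransGen.single this

lemma der_D (k : ℕ) :
    Der [Sum.inr (D, List.replicate k f ++ [z])] ((List.replicate k t).map Sum.inl) := by
  induction k with
  | zero => exact der_pop (A := D) (x := z) (rhs := []) [] (by simp [lampFlagRules])
  | succ k ih =>
    have h1 := der_pop (A := D) (x := f) (rhs := [Sum.inl t, Sum.inr D])
      (List.replicate k f ++ [z]) (by simp [lampFlagRules])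
    exact h1.trans (Der.append (α := [Sum.inl t]) Relation.ReflTransGen.refl ih)

lemma der_E (k : ℕ) :
    Der [Sum.inr (E, List.replicate k f ++ [z])] ((List.replicate k s).map Sum.inl) := by
  induction k with
  | zero => exact der_pop (A := E) (x := z) (rhs := []) [] (by simp [lampFlagRules])
  | succ k ih =>
    have h1 := der_pop (A := E) (x := f) (rhs := [Sum.inl s, Sum.inr E])
      (List.replicate k f ++ [z]) (by simp [lampFlagRules])
    exact h1.trans (Der.append (α := [Sum.inl s]) Relation.ReflTransGen.refl ih)

lemma der_push (k : ℕ) : Der [Sum.inr (S, [])] [Sum.inr (P, List.replicate k f ++ [z])] := by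
  induction k with
  | zero => exact der_rule (A := S) (rhs := [Sum.inr (P, [z])]) [] (by simp [lampRules])
  | succ k ih =>
    exact ih.trans (der_rule (A := P) (rhs := [Sum.inr (P, [f])]) _ (by simp [lampRules]))

lemma der_commWord (k : ℕ) : Der [Sum.inr (S, [])] ((commWord k).map Sum.inl) := by
  refine (der_push k).trans ?_
  have h1 := der_rule (A := P) (rhs := [Sum.inl a, Sum.inr (E, []), Sum.inl a, Sum.inr (D, []),
    Sum.inl a, Sum.inr (E, []), Sum.inl a, Sum.inr (D, [])]) (List.replicate k f ++ [z])
    (by simp [lampRules])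
  refine h1.trans ?_
  have ha : Der [Sum.inl a] [Sum.inl a] := Relation.ReflTransGen.refl
  have h2 := ((((((ha.append (der_E k)).append ha).append (der_D k)).append ha).append
    (der_E k)).append ha).append (der_D k)
  have h3 : (commWord k).map Sum.inl = ([Sum.inl a] ++ (List.replicate k s).map Sum.inl ++
      [Sum.inl a] ++ (List.replicate k t).map Sum.inl ++ [Sum.inl a] ++
      (List.replicate k s).map Sum.inl ++ [Sum.inl a] ++ (List.replicate k t).map Sum.inl :
        List (Letter ⊕ NTs × List Flags)) := by
    simp [commWord]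
  rw [h3]
  exact h2

lemma le_language : lampLang ≤ lampGrammar.language := by
  rintro w (rfl | rfl | ⟨k, rfl⟩)
  · exact der_rule (A := S) (rhs := [Sum.inl a, Sum.inl a]) [] (by simp [lampRules])
  · exact der_rule (A := S) (rhs := [Sum.inl s, Sum.inl t]) [] (by simp [lampRules])
  · exact der_commWord k

theorem lampLang_isIndexed : IsIndexed lampLang :=
  ⟨lampGrammar, le_antisymm language_le le_language⟩

end PartD

/-! ## Conclusion -/

/-- There is a finitely generated group that is a nested stack group (it has a presentation over a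
finite alphabet with an indexed language of relators) but is not a context-free group (it has no
presentation over a finite alphabet with a context-free language of relators). -/
theorem result : ∃ (G : Type) (_ : Group G),
    Group.FG G ∧ IsNestedStackGroup G ∧ ¬ IsContextFreeGroup G := by
  refine ⟨PresentedGroup (relators lampLang), inferInstance, ?_, ?_, ?_⟩
  · rw [Group.fg_iff]
    exact ⟨Set.range PresentedGroup.of, PresentedGroup.closure_range_of _, Set.finite_range _⟩
  · exact ⟨Letter, inferInstance, lampLang, lampLang_isIndexed, ⟨MulEquiv.refl _⟩⟩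
  · rintro ⟨Δ, hΔ, L, hL, ⟨e⟩⟩
    have h := isFinitelyPresented_of_isContextFree hL
    exact lamp_not_isFinitelyPresented (Group.IsFinitelyPresented.equiv e.symm)

end Pool.Agent.Results.MP_c0d803_al.IndexedNotContextFree
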